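import Pool.Agent.Q50.HL.Main

/-!
# The Hodge locus is given by the tensors of degree four

Let `A` be a continuous family of polarised rational Hodge structures on `V = ℚ^n`, with parameters
in a topological space `S` (for a polarised variation of Hodge structure on a smooth complex variety,
`S` is the universal cover). Let `s` be a point. The set of the points at which all Hodge classes of
degree four at `s` are Hodge classes, and the set of the points at which all Hodge classes of all
degrees at `s` are Hodge classes, have the same connected component through `s`. So the special
subvarieties, which are the components of the Hodge loci of all tensors, are the components of the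
Hodge loci of the tensors of degree four. In particular, if `S` is connected, then the Hodge locus
for all tensors is the Hodge locus for the tensors of degree four.
-/

namespace Pool.Agent.Results.MP_eeb1a4_ag.DegreeFourTensors

open Pool.Agent.Q50.HL

theorem result {S : Type} [TopologicalSpace S] {n : ℕ} (A : HodgeFamily S n) :
    (∀ s, connectedComponentIn (A.locus s 4) s = connectedComponentIn (⋂ m, A.locus s m) s) ∧
      (PreconnectedSpace S → ⋃ m, A.hodgeLocus m = A.hodgeLocus 4) :=
  ⟨component_eq A, fun _ => hodgeLocus_eq A⟩

end Pool.Agent.Results.MP_eeb1a4_ag.DegreeFourTensors
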