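import Pool.Agent.Q138.PS.VJ
import Pool.Agent.Results.MP_eeb1a4_ag.HodgeAlgebraicWindows

/-!
# Hodge generic fibres of the hypergeometric variations at the algebraic points `1 / (± t + γ)`, `t` close to `α P(n)`

Let `q ≥ 2`. We consider countably many hypergeometric variations of Hodge structure of rank `2m ≥ 4` with a rational structure, as
in the starting file `HodgeAlgebraicWindows` (for example the mirrors of the Calabi-Yau hypersurfaces). Outside a set of real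
numbers of Hausdorff dimension at most `q / (q + 1 / (q 2 ^ (q - 1)))` (that is `8 / 9` for `q = 2`) every `α > 0` has the following
property. There is `η > 0` such that for ALL the variations, ALL algebraic numbers `γ` and both signs `ε` there is `κ > 0` such that
for all large `N` and ALL integral polynomials `P` of degree `q` with positive leading coefficient and coefficients of size at
most `N ^ η`: for all but `N ^ (1 - κ)` of the `n ≤ N`, for EVERY integer `t` with `|t - ⌊α P(n)⌋| ≤ N ^ κ` the fibre at the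
algebraic point `z = 1 / (ε t + γ)` is Hodge generic.
-/

set_option autoImplicit false

namespace Pool.Agent.Results.MP_eeb1a4_ag.HodgeGenericAlongRealMultiples

open Finset Filter Topology
open Pool.Agent.Q138.PS
open HodgeAlgebraicWindows (RationalStructure HodgeGeneric)

/-- a hypergeometric variation with a rational structure -/
structure Variation where
  /-- half of the rank -/
  m : ℕ
  /-- the parameters -/
  β : Fin m → ℚ
  /-- the base change from the Frobenius basis to rational coordinates -/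
  C : Matrix (Fin (2 * m)) (Fin (2 * m)) ℂ
  /-- the polarisation -/
  A : Matrix (Fin (2 * m)) (Fin (2 * m)) ℚ
  hm : 2 ≤ m
  hβ : ∀ j, 0 < β j ∧ β j < 1
  hC : RationalStructure C A

/-- the fibres at all points `1 / ξ`, `ξ ∈ S`, are Hodge generic -/
def AllGeneric (B : Variation) (S : Set ℂ) : Prop := ∀ ξ ∈ S, HodgeGeneric B.β ξ B.C B.A

theorem windows (B : Variation) (γ : ℂ) (hγ : IsAlgebraic ℤ γ) (ε : ℤ) (hε : ε = 1 ∨ ε = -1) :
    ∃ M : ℕ, ∃ c : ℝ, 0 < c ∧ ∃ x₀ : ℕ, ∀ x H : ℕ, x₀ ≤ x → (H : ℝ) ≤ (x : ℝ) ^ c →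
      ∃ T : Finset ℕ, T.card ≤ M ∧ AllGeneric B ((fun t : ℕ => (ε : ℂ) * t + γ) '' (Set.Icc x (x + H) \ T)) := by
  obtain ⟨G₀, hG₀⟩ := (HodgeAlgebraicWindows.result B.hm B.β B.hβ).1
  have hw : WinS (G₀ + 1) (AllGeneric B) := by
    intro m A
    obtain ⟨E, hE⟩ := hG₀ (G₀ + 1) (by omega) m A
    refine ⟨E, B.m + 1, fun H ξ hξ hp => ?_⟩
    obtain ⟨-, h1⟩ := hE H ξ hξ hp
    obtain ⟨S, hS, h2⟩ := h1 B.C B.A B.hC
    refine ⟨S, hS, ?_⟩
    rintro z ⟨u, hu1, hu2, hu3, rfl⟩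
    exact h2 u hu1 hu2 hu3
  obtain ⟨M, c, hc, x₀, h⟩ := win_of_algS (G₀ + 1) (by omega) (AllGeneric B) (fun S S' hS h ξ hξ => h ξ (hS hξ)) hw γ hγ ε hε
  refine ⟨M, c, hc, x₀, fun x H hx hH => ?_⟩
  obtain ⟨T, hT, h1⟩ := h x H hx hH
  refine ⟨T, hT, ?_⟩
  rintro ξ ⟨t, ht, rfl⟩
  exact h1 t _ ⟨t, ⟨ht, rfl⟩, rfl⟩

/-- **Theorem.** -/
theorem result (q : ℕ) (hq : 2 ≤ q) {ι : Type} [Countable ι] (B : ι → Variation) :
    ∃ E : Set ℝ, dimH E ≤ ENNReal.ofReal (q / (q + 1 / ((q : ℝ) * 2 ^ (q - 1)))) ∧ ∀ α : ℝ, 0 < α → α ∉ E →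
      ∃ η : ℝ, 0 < η ∧ ∀ (i : ι) (γ : ℂ), IsAlgebraic ℚ γ → ∀ ε : ℤ, ε = 1 ∨ ε = -1 →
      ∃ κ : ℝ, 0 < κ ∧ ∀ᶠ N : ℕ in atTop, ∀ P : Polynomial ℤ, P.natDegree = q → 0 < P.leadingCoeff →
        (∀ j, |((P.coeff j : ℤ) : ℝ)| ≤ (N : ℝ) ^ η) →
        (badG (fun S => AllGeneric (B i) ((fun t : ℕ => (ε : ℂ) * t + γ) '' S)) ⌊(N : ℝ) ^ κ⌋₊ α P N : ℝ) ≤
          (N : ℝ) ^ (1 - κ) := by
  classical
  have hc : Countable {γ : ℂ // IsAlgebraic ℚ γ} := Algebraic.countable ℚ ℂ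
  obtain ⟨E, hE, hg⟩ := win_tuples (ι := ι × {γ : ℂ // IsAlgebraic ℚ γ} × ℤ) q hq
    (fun j S => AllGeneric (B j.1) ((fun t : ℕ => (j.2.2 : ℂ) * t + (j.2.1 : ℂ)) '' S))
    (fun j S S' hS hS' ξ hξ => hS' ξ (Set.image_mono hS hξ))
  refine ⟨E, hE, fun α hα hαE => ?_⟩
  obtain ⟨η, hη, h1⟩ := hg α hα hαE
  refine ⟨η, hη, fun i γ hγ ε hε => ?_⟩
  obtain ⟨M, c, hc, h2⟩ := windows (B i) γ ((IsFractionRing.isAlgebraic_iff ℤ ℚ ℂ).2 hγ) ε hε
  exact h1 (i, ⟨γ, hγ⟩, ε) M c hc h2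

end Pool.Agent.Results.MP_eeb1a4_ag.HodgeGenericAlongRealMultiples
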