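import Pool.Agent.Q138.PS.VF
import Pool.Agent.Results.MP_eeb1a4_ag.CalabiYauHodgeLocus

/-!
# The Hodge locus of variations of Calabi-Yau type at the points `1 / t`, `t` close to `α P(n)`

Let `q ≥ 2` and consider countably many variations of Hodge structure of Calabi-Yau type as in the starting file
`CalabiYauHodgeLocus`: rank `2m ≥ 4`, all Hodge numbers `h^{p,q} = 1`, maximally unipotent monodromy at `x = 0`, Zariski dense
monodromy group; all their special points are atypical. Outside a set of real numbers of Hausdorff dimension at most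
`q / (q + 1 / (q 2 ^ (q - 1)))` (that is `8 / 9` for `q = 2`) every `α > 0` has the following property. There is `η > 0` such that
for ALL the variations there is `κ > 0` such that for all large `N` and ALL integral polynomials `P` of degree `q` with positive
leading coefficient and coefficients of size at most `N ^ η`: for all but `N ^ (1 - κ)` of the `n ≤ N`, for NO integer `t ≥ 1` with
`|t - ⌊α P(n)⌋| ≤ N ^ κ` the point `1 / t` is in the Hodge locus.
-/

set_option autoImplicit false

open PowerSeries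

namespace Pool.Agent.Results.MP_eeb1a4_ag.HodgeLocusAlongRealMultiples

open Finset Filter Topology
open Pool.Agent.Q138.PS
open CalabiYauHodgeLocus (GFamily entries Polarised FullMonodromy RationalStructure IsHodge F OnlyPolarisation)

/-- a variation of Calabi-Yau type with a rational structure -/
structure Variation where
  /-- half of the rank -/
  m : ℕ
  /-- the denominator of the differential system -/
  T : Polynomial ℤ
  /-- the differential system -/
  A : Fin (2 * m * (2 * m)) → Fin (2 * m * (2 * m)) → Polynomial ℤ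
  /-- the holomorphic part of the period matrix -/
  H : Matrix (Fin (2 * m)) (Fin (2 * m)) (PowerSeries ℚ)
  /-- the flat form -/
  S : Matrix (Fin (2 * m)) (Fin (2 * m)) ℚ
  /-- the denominator of the form in the algebraic basis -/
  p : Polynomial ℚ
  /-- the numerators -/
  B : Matrix (Fin (2 * m)) (Fin (2 * m)) (Polynomial ℚ)
  /-- the base change to a rational basis -/
  C : Matrix (Fin (2 * m)) (Fin (2 * m)) ℂ
  /-- the rational polarisation -/
  P : Matrix (Fin (2 * m)) (Fin (2 * m)) ℚ
  hm : 2 ≤ m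
  hG : GFamily T A (entries H)
  hP : Polarised H S p B
  hM : FullMonodromy H S p B
  hC : RationalStructure S C P

/-- `t ≥ 1` and the point `1 / t` is in the Hodge locus: the filtration defines a Hodge structure, and not all Hodge tensors
are combinations of products of the polarisation -/
def InLocus (V : Variation) (t : ℕ) : Prop :=
  1 ≤ t ∧ IsHodge (F V.H t V.C V.P) ∧ ¬ OnlyPolarisation (F V.H t V.C V.P) V.P

theorem few (V : Variation) : ∃ c C : ℝ, 0 < c ∧ ∀ Y : ℕ, 1 ≤ Y → cn (InLocus V) Y ≤ C * (Y : ℝ) ^ (1 - c) := by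
  obtain ⟨-, ⟨C, c, hc, h⟩, -⟩ := CalabiYauHodgeLocus.result V.hm V.T V.A V.H V.hG V.S V.p V.B V.hP V.hM
  refine ⟨c, C, hc, fun Y hY => ?_⟩
  refine le_trans (cn_of_ncard _ _ _ ((Set.finite_Iic Y).subset ?_) ?_) (h Y hY V.C V.P V.hC)
  · rintro t ⟨-, ht⟩
    exact ht
  · rintro t - ht2 ⟨-, hbad⟩
    exact ⟨hbad, ht2⟩

/-- **Theorem.** -/
theorem result (q : ℕ) (hq : 2 ≤ q) {ι : Type} [Countable ι] (V : ι → Variation) :
    ∃ E : Set ℝ, dimH E ≤ ENNReal.ofReal (q / (q + 1 / ((q : ℝ) * 2 ^ (q - 1)))) ∧ ∀ α : ℝ, 0 < α → α ∉ E →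
      ∃ η : ℝ, 0 < η ∧ ∀ i : ι, ∃ κ : ℝ, 0 < κ ∧ ∀ᶠ N : ℕ in atTop, ∀ P : Polynomial ℤ, P.natDegree = q →
        0 < P.leadingCoeff → (∀ j, |((P.coeff j : ℤ) : ℝ)| ≤ (N : ℝ) ^ η) →
        (badW (InLocus (V i)) ⌊(N : ℝ) ^ κ⌋₊ α P N : ℝ) ≤ (N : ℝ) ^ (1 - κ) := by
  obtain ⟨E, hE, hg⟩ := exc_bad q hq (fun i => InLocus (V i))
  refine ⟨E, hE, fun α hα hαE => ?_⟩
  obtain ⟨η, hη, h1⟩ := hg α hα hαE
  refine ⟨η, hη, fun i => ?_⟩
  obtain ⟨c, C, hc, h2⟩ := few (V i)
  exact h1 i C c hc h2

end Pool.Agent.Results.MP_eeb1a4_ag.HodgeLocusAlongRealMultiples
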