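import Pool.Agent.Q209.MB.FG
import Pool.Agent.Q209.MB.Multi
import Pool.Agent.Q170.ZP.MultiCount

/-!
# MP_eeb1a4_ag: Zilber-Pink for mixed variations on `Y(1)^n × G_m^k`, for subvarieties given by equations with partial box degenerations

The mixed Shimura variety `Y(1)^n × G_m^k` (elliptic curves with the invariants `x_i`, and extensions of
`ℤ` by `ℤ(1)` given by the numbers `x_j ≠ 0`) has coordinates indexed by `Fin n ⊕ Fin k`; `Y(1)` is
identified with `ℂ` by the elliptic modular function `jj = j = E₄³ / Δ`.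

**Sets given by equations.** Any `m + 1` of the coordinates of a subvariety `V ⊂ Y(1)^n × G_m^k` of
dimension `m` satisfy an equation. We suppose that for all sets `J` of `m + 1` coordinates such an
equation `G_J (x_j, j ∈ J) = 0` is given, with coefficients in a ring `Λ`, of degree at most `d_j` in
`x_j`. `given` is the set of the points of `Y(1)^n × G_m^k` which satisfy all the equations. No
other hypothesis is made on `V`: it can have many components.

**Partial box degenerations.** Let `v` be a place (a prime ideal) of `Λ` with uniformizer `ϖ`. Let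
`e_i ≥ 0` be integers for the modular coordinates, and `e_j, e'_j ≥ 0` for the torus coordinates. The set
`V` has a partial box degeneration of the type `(e, e')` if, for all `J`, after the substitution
`x_i = ϖ ^ (-e_i) z_i`, `x_j = ϖ ^ (e'_j - e_j) z_j` and division by a power `ϖ ^ w` the equation `G_J`
is integral, and the coefficients of the corner monomials `∏_{j ∈ I} z_j ^ d_j` are units for all `I ⊂ J`
which contain all the modular coordinates of `J` with `e_i = 0`. So only those modular coordinates with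
`e_i > 0` tend to the cusp, with the order `e_i` of the pole, the other modular coordinates are
integral, and the torus coordinates have the orders `e'_j - e_j ∈ ℤ`, with at most `m` exceptions. For
example, if all the equations have constant coefficients and the coefficients of these corner monomials
do not vanish, this is so for the translates `{(x_i / c_i)_i, (x_j c'_j / c_j)_j : x ∈ V}` by numbers
`c_i`, `c'_j` of the orders `e_i`, `e'_j`. Here the equations themselves vary.

**Conditions on the orders** `e_{l i}`, `e'_{l j}`, `l = 1, …, L` (`Orders`, as in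
`MP_a325a5_ag.PartialDegenerations`):
* `Independent`: no product of distinct positive orders of modular coordinates is a square (for
  instance distinct primes).
* every modular coordinate is *not* degenerate at most `τ` times;
* `Rigid`: for `s ≤ m + 1` no linear subspace of `ℚ^k` of codimension `s` (or larger) is at a Hamming
  distance smaller than `s` from more than `β (s)` of the vectors `(e'_{l j} - e_{l j})_j`;
* `β (s) + (m + 1 - s) (τ + 1) < L` for all `s ≤ m + 1`.
So the number `L` of places does not depend on `n`. For `k = 0` the condition is `(m + 1) (τ + 1) < L`.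

**Theorem.** Under these conditions `V` has no atypical intersection with the products `Z × C`
(`NoAtypical`), `Z` a special subvariety of `Y(1)^n` and `C` a torsion coset: every irreducible closed
subset of `V ∩ (Z × C)` has dimension at most `dim Z + dim C + m - (n + k)`, and the same bound holds for
the transcendence degrees of the points of `V ∩ (Z × C)`.
1. *Local criterion*: for equations over any ring `Λ ⊂ ℂ` and `L` good places.
2. *One-parameter families* `V_t` over a countable field `K` (coefficients in `K[t]`), with partial box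
   degenerations at the elements of finite sets `D_1, …, D_M` of numbers algebraic over `K`, where the
   types at elements of any `L` of the sets satisfy the conditions. (a) If at least `L` of the sets are
   not empty, the conclusion holds for all `t` which are transcendental over `K`. (b) If the union of any
   `M - L + 1` of the sets has at least three elements (for instance `M = L + 2` and disjoint sets), it
   holds for all but finitely many `t` in any field generated by finitely many numbers algebraic over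
   `K`; (c) two elements are sufficient for all but finitely many elements of a finitely generated ring
   of such numbers.
3. *Families with `r` parameters*, with partial box degenerations along the hypersurfaces `D_l = 0`,
   outside `E_l = 0`, `D_l, E_l ∈ ℤ[t_1, …, t_r]`. The conclusion holds for all `t ∈ ℤ^r` such that every
   `D_l (t)` is not zero and has a prime factor `p > Q₀` which does not divide `E_l (t)`. If the `D_l` are
   not constant and `D_l`, `E_l` have no common factor, this is true for 100 per cent of the `t`: the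
   number of exceptions with `|t_j| ≤ H` is at most `C H ^ (r - 1 + ε)`.

The constant coordinates of `Z` can be special points or integral over the ring generated by a finite
set `Γ`, and `C` can be any coset of an algebraic subgroup by a point `η` such that `η_j` and `1 / η_j` are
integral over this ring (integral over `Λ` in part 1; `Γ` algebraic over `K` in part 2, in `K` in part 3).

**Earlier results.** `MP_d83ecd_ag.BoxDegenerations` is the pure case `k = 0` (with levels) where *all* the
coordinates degenerate at every place, `MP_a325a5_ag.PartialDegenerations` treats the scaled images of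
projective varieties for divisors in general position. New here: sets given by equations in the mixed
case; zeros, poles and units of the torus coordinates; modular coordinates which do not degenerate, for
sets given by equations (also new for `k = 0`): less corners, only those containing these coordinates.

**Proof.** At a place of the type `(e, e')` among any `m + 1` coordinates there is one which has the exact
order (modular coordinates with `e_i > 0`, torus coordinates), or is integral (`e_i = 0`): otherwise a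
corner monomial would dominate the equation. The combinatorial core of
`MP_a325a5_ag.PartialDegenerations` (linear algebra for the torus, parity for isogenies) does the rest.
-/

set_option autoImplicit false

namespace Pool.Agent.Results.MP_eeb1a4_ag.PartialBoxDegenerations

open H294ZP UpperHalfPlane MvPolynomial Pool.Agent.W282.ZP
open Pool.Agent.Y152.RP.FamM (SpecialVariety SpecialVariety.locus coset NoAtypical)

/-- The points of `Y(1)^n × G_m^k` which satisfy the equations `G_J (x_j, j ∈ J) = 0` for all sets `J` of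
`m + 1` coordinates. The homomorphism `f` is the specialization of the coefficients. -/
def given {A : Type} [CommRing A] (f : A →+* ℂ) {n k : ℕ} (m : ℕ)
    (G : ∀ J : Finset (Fin n ⊕ Fin k), MvPolynomial J A) : Set (Fin n ⊕ Fin k → ℂ) :=
  {x | (∀ j, x (Sum.inr j) ≠ 0) ∧
    ∀ J : Finset (Fin n ⊕ Fin k), J.card = m + 1 → eval₂ f (fun j : J => x j) (G J) = 0}

/-- The exponents of a corner monomial `∏_{j ∈ I} x_j^(d_j)`. -/
noncomputable def corner {σ : Type} [Fintype σ] [DecidableEq σ] (d : σ → ℕ) (I : Finset σ) :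
    σ →₀ ℕ :=
  Finsupp.equivFunOnFinite.symm fun j => if j ∈ I then d j else 0

/-- The numbers `d J` bound the degrees of the equations `G J` for the sets `J` of `m + 1`
coordinates. -/
def DegreeBounds {A : Type} [CommRing A] {n k : ℕ} (m : ℕ)
    (G : ∀ J : Finset (Fin n ⊕ Fin k), MvPolynomial J A)
    (d : ∀ J : Finset (Fin n ⊕ Fin k), J → ℕ) : Prop :=
  ∀ J : Finset (Fin n ⊕ Fin k), J.card = m + 1 → ∀ u ∈ (G J).support, ∀ j, u j ≤ d J j

/-- The set `I ⊂ J` contains all the modular coordinates of `J` which are not degenerate. -/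
def Contains {n k : ℕ} (e : Fin n ⊕ Fin k → ℕ) {J : Finset (Fin n ⊕ Fin k)} (I : Finset J) :
    Prop :=
  ∀ (j : J) (i : Fin n), (j : Fin n ⊕ Fin k) = Sum.inl i → e j = 0 → j ∈ I

/-- The exponents of the poles, `∑ e_j u_j`, of a monomial. -/
def poles {n k : ℕ} (e : Fin n ⊕ Fin k → ℕ) {J : Finset (Fin n ⊕ Fin k)} (u : J →₀ ℕ) : ℕ :=
  ∑ j : J, e j * u j

/-- The exponents of the zeros, `∑ e'_j u_j` over the torus coordinates, of a monomial. -/
def zeros {n k : ℕ} (e' : Fin k → ℕ) {J : Finset (Fin n ⊕ Fin k)} (u : J →₀ ℕ) : ℕ :=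
  ∑ j : J, Sum.elim (fun _ => 0) e' (j : Fin n ⊕ Fin k) * u j

/-- No product of distinct positive exponents is a square. -/
def Independent {L n : ℕ} (e : Fin L → Fin n → ℕ) : Prop :=
  ∀ P : Finset (Fin L × Fin n), P.Nonempty → (∀ x ∈ P, 0 < e x.1 x.2) →
    ¬ IsSquare (∏ x ∈ P, e x.1 x.2)

/-- For `s ≤ m + 1` no linear subspace of `ℚ^k` of codimension `s` (or larger) is at a Hamming distance
smaller than `s` from more than `β s` of the vectors `d l`. -/
def Rigid {L k : ℕ} (m : ℕ) (β : ℕ → ℕ) (d : Fin L → Fin k → ℤ) : Prop :=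
  ∀ (s : ℕ) (B : Submodule ℚ (Fin k → ℚ)), s ≤ m + 1 → Module.finrank ℚ B + s ≤ k →
    ∀ F : Finset (Fin L), (∀ l ∈ F, ∃ v ∈ B, hammingDist v (fun j => (d l j : ℚ)) < s) →
      F.card ≤ β s

/-- The conditions on the orders at the `L` places (or degenerate members). -/
def Orders {L n k : ℕ} (m : ℕ) (e : Fin L → Fin n ⊕ Fin k → ℕ) (e' : Fin L → Fin k → ℕ) : Prop :=
  Independent (fun l i => e l (Sum.inl i)) ∧ ∃ (τ : ℕ) (β : ℕ → ℕ),
    (∀ i, (Finset.univ.filter fun l => e l (Sum.inl i) = 0).card ≤ τ) ∧
    Rigid m β (fun l j => (e' l j : ℤ) - e l (Sum.inr j)) ∧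
    ∀ s ≤ m + 1, β s + (m + 1 - s) * (τ + 1) < L

/-- A good place: a homomorphism `red` to a field and an element `ϖ ≠ 0` with `red ϖ = 0`, such that for
every `J` there is a number `w` for which the coefficients of the monomials `∏ x_j ^ u_j` of the equation
are divisible by `ϖ ^ (w + ∑ (e_j - e'_j) u_j)` at the place, and the coefficients of the corners which
contain the modular coordinates with `e i = 0` have exactly this order. -/
structure GoodPlace {Λ : Type} [CommRing Λ] {n k : ℕ} (m : ℕ)
    (G : ∀ J : Finset (Fin n ⊕ Fin k), MvPolynomial J Λ)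
    (d : ∀ J : Finset (Fin n ⊕ Fin k), J → ℕ) (e : Fin n ⊕ Fin k → ℕ) (e' : Fin k → ℕ) where
  F : Type
  [field : Field F]
  red : Λ →+* F
  ϖ : Λ
  ϖ_ne : ϖ ≠ 0
  red_ϖ : red ϖ = 0
  w : Finset (Fin n ⊕ Fin k) → ℕ
  box : ∀ J : Finset (Fin n ⊕ Fin k), J.card = m + 1 → ∀ u ∈ (G J).support, ∃ a b : Λ,
    red a ≠ 0 ∧ a * ((G J).coeff u * ϖ ^ zeros e' u) = b * ϖ ^ (w J + poles e u)
  corners : ∀ J : Finset (Fin n ⊕ Fin k), J.card = m + 1 → ∀ I : Finset J, Contains e I →
    ∃ a b : Λ, red a ≠ 0 ∧ red b ≠ 0 ∧
      a * ((G J).coeff (corner (d J) I) * ϖ ^ zeros e' (corner (d J) I)) =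
        b * ϖ ^ (w J + poles e (corner (d J) I))

/-- The order of the zero at `α` of a polynomial in the parameter. -/
noncomputable def order {K : Subfield ℂ} (c : Polynomial K) (α : ℂ) : ℕ :=
  (c.map (algebraMap K ℂ)).rootMultiplicity α

/-- The family has a partial box degeneration of the type `(e, e')` at `t = α`: for every `J` there is a
number `w` such that the order at `α` of the coefficient of the monomial `∏ x_j ^ u_j` is at least
`w + ∑ (e_j - e'_j) u_j`, with equality for the coefficients of the corners which contain the modular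
coordinates with `e i = 0`. -/
def BoxAt {K : Subfield ℂ} {n k : ℕ} (m : ℕ)
    (G : ∀ J : Finset (Fin n ⊕ Fin k), MvPolynomial J (Polynomial K))
    (d : ∀ J : Finset (Fin n ⊕ Fin k), J → ℕ) (e : Fin n ⊕ Fin k → ℕ) (e' : Fin k → ℕ)
    (α : ℂ) : Prop :=
  ∀ J : Finset (Fin n ⊕ Fin k), J.card = m + 1 → ∃ w : ℕ,
    (∀ u ∈ (G J).support, w + poles e u ≤ order ((G J).coeff u) α + zeros e' u) ∧
    ∀ I : Finset J, Contains e I → (G J).coeff (corner (d J) I) ≠ 0 ∧
      order ((G J).coeff (corner (d J) I)) α + zeros e' (corner (d J) I) =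
        w + poles e (corner (d J) I)

/-- The family with several parameters has a partial box degeneration of the type `(e, e')` along
`D = 0`, outside `E = 0`: for every `J` there is a number `w` such that the coefficient of the monomial
`∏ x_j ^ u_j` is divisible by `D ^ (w + ∑ (e_j - e'_j) u_j)`, and for the corners which contain the modular
coordinates with `e i = 0` the quotient has no zero `t` with `D (t) = 0` and `E (t) ≠ 0`. -/
def BoxAlong {K : Subfield ℂ} {r n k : ℕ} (m : ℕ)
    (G : ∀ J : Finset (Fin n ⊕ Fin k), MvPolynomial J (MvPolynomial (Fin r) K))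
    (d : ∀ J : Finset (Fin n ⊕ Fin k), J → ℕ) (e : Fin n ⊕ Fin k → ℕ) (e' : Fin k → ℕ)
    (D E : MvPolynomial (Fin r) ℤ) : Prop :=
  ∀ J : Finset (Fin n ⊕ Fin k), J.card = m + 1 → ∃ w : ℕ,
    (∀ u ∈ (G J).support, MvPolynomial.map (Int.castRingHom K) D ^ (w + poles e u) ∣
      (G J).coeff u * MvPolynomial.map (Int.castRingHom K) D ^ zeros e' u) ∧
    ∀ I : Finset J, Contains e I → ∃ b : MvPolynomial (Fin r) K,
      (G J).coeff (corner (d J) I) *
          MvPolynomial.map (Int.castRingHom K) D ^ zeros e' (corner (d J) I) =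
        MvPolynomial.map (Int.castRingHom K) D ^ (w + poles e (corner (d J) I)) * b ∧
      ∀ t : Fin r → ℂ, aeval t D = 0 → aeval t E ≠ 0 → aeval t b ≠ 0

/-- The value at `t` of a polynomial in one parameter. -/
noncomputable def evalOne (K : Subfield ℂ) (t : ℂ) : Polynomial K →+* ℂ :=
  (Polynomial.aeval t : Polynomial K →ₐ[K] ℂ).toRingHom

/-- The value at `t` of a polynomial in several parameters. -/
noncomputable def evalMany (K : Subfield ℂ) {r : ℕ} (t : Fin r → ℂ) :
    MvPolynomial (Fin r) K →+* ℂ :=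
  (aeval t : MvPolynomial (Fin r) K →ₐ[K] ℂ).toRingHom

/-- The ring of the allowed constants -/
noncomputable abbrev consts (Γ : Finset ℂ) : Algebra.adjoin ℤ (Γ : Set ℂ) →+* ℂ :=
  algebraMap (Algebra.adjoin ℤ (Γ : Set ℂ)) ℂ

theorem indPos {L n : ℕ} {e : Fin L → Fin n → ℕ} (h : Independent e) :
    Pool.Agent.Q170.PD.IndPos 1 e := by
  intro P hP hpos hsq
  obtain ⟨q, hq, hsq⟩ := hsq
  have h1 : q = 1 := by
    by_contra hne
    have hp := Nat.minFac_prime hne
    exact absurd (hq.2 _ hp (Nat.minFac_dvd q)) (not_le.2 hp.one_lt)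
  rw [h1, mul_one] at hsq
  exact h P hP hpos hsq

theorem contains {n k : ℕ} {e : Fin n ⊕ Fin k → ℕ} {J : Finset (Fin n ⊕ Fin k)} {I : Finset J}
    (h : ∀ j : J, Pool.Agent.Q209.MP.needs e j = 0 → j ∈ I) : Contains e I := by
  intro j i hj h0
  refine h j ?_
  rw [hj] at h0 ⊢
  exact h0

/-- **Zilber-Pink in `Y(1)^n × G_m^k` for sets given by equations with partial box degenerations**: the
local criterion, one-parameter families (transcendental parameters, finitely generated fields and
rings), and families with several parameters. -/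
theorem result :
    (∀ (Λ : Type) [CommRing Λ] (f : Λ →+* ℂ), Function.Injective f →
      ∀ (K : Subfield ℂ) [Countable K], (∀ a, f a ∈ K) → ∀ (n k m L : ℕ)
      (G : ∀ J : Finset (Fin n ⊕ Fin k), MvPolynomial J Λ)
      (d : ∀ J : Finset (Fin n ⊕ Fin k), J → ℕ), DegreeBounds m G d →
      ∀ (e : Fin L → Fin n ⊕ Fin k → ℕ) (e' : Fin L → Fin k → ℕ), Orders m e e' →
      (∀ l, Nonempty (GoodPlace m G d (e l) (e' l))) → NoAtypical f K m (given f m G)) ∧
    (∀ (K : Subfield ℂ) [Countable K] (n k m L : ℕ)
      (G : ∀ J : Finset (Fin n ⊕ Fin k), MvPolynomial J (Polynomial K))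
      (d : ∀ J : Finset (Fin n ⊕ Fin k), J → ℕ), DegreeBounds m G d →
      ∀ (M : ℕ) (D : Fin M → Finset ℂ), (∀ l, ∀ α ∈ D l, IsAlgebraic K α) →
      ∀ (e : ℂ → Fin n ⊕ Fin k → ℕ) (e' : ℂ → Fin k → ℕ),
      (∀ l, ∀ α ∈ D l, BoxAt m G d (e α) (e' α) α) →
      (∀ (f : Fin L → Fin M) (α : Fin L → ℂ), Function.Injective f → (∀ l, α l ∈ D (f l)) →
        Orders m (fun l => e (α l)) (fun l => e' (α l))) →
      ∀ Γ : Finset ℂ, (∀ γ ∈ Γ, IsAlgebraic K γ) →
      ((∀ I : Finset (Fin M), M + 1 ≤ I.card + L → 1 ≤ (I.biUnion D).card) →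
        ∀ t : ℂ, Transcendental K t → ∀ (K' : Subfield ℂ) [Countable K'], K ≤ K' → t ∈ K' →
        NoAtypical (consts Γ) K' m (given (evalOne K t) m G)) ∧
      ∀ F : Finset ℂ, (∀ z ∈ F, IsAlgebraic K z) →
      ((∀ I : Finset (Fin M), M + 1 ≤ I.card + L → 3 ≤ (I.biUnion D).card) →
        {t : ℂ | t ∈ Subfield.closure (F : Set ℂ) ∧
          ¬ NoAtypical (consts Γ) K m (given (evalOne K t) m G)}.Finite) ∧
      ((∀ I : Finset (Fin M), M + 1 ≤ I.card + L → 2 ≤ (I.biUnion D).card) →
        {t : ℂ | t ∈ Subring.closure (F : Set ℂ) ∧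
          ¬ NoAtypical (consts Γ) K m (given (evalOne K t) m G)}.Finite)) ∧
    (∀ (K : Subfield ℂ) [Countable K] (r n k m L : ℕ)
      (G : ∀ J : Finset (Fin n ⊕ Fin k), MvPolynomial J (MvPolynomial (Fin r) K))
      (d : ∀ J : Finset (Fin n ⊕ Fin k), J → ℕ), DegreeBounds m G d →
      ∀ (D E : Fin L → MvPolynomial (Fin r) ℤ)
      (e : Fin L → Fin n ⊕ Fin k → ℕ) (e' : Fin L → Fin k → ℕ), Orders m e e' →
      (∀ l, BoxAlong m G d (e l) (e' l) (D l) (E l)) → ∀ Γ : Finset ℂ, (∀ γ ∈ Γ, γ ∈ K) →
      (∃ Q₀ : ℕ, ∀ t : Fin r → ℤ, (∀ l, eval t (D l) ≠ 0 ∧ ∃ p : ℕ, p.Prime ∧ Q₀ < p ∧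
        (p : ℤ) ∣ eval t (D l) ∧ ¬ (p : ℤ) ∣ eval t (E l)) →
        NoAtypical (consts Γ) K m (given (evalMany K fun j => (t j : ℂ)) m G)) ∧
      ((∀ l, 0 < (D l).totalDegree ∧ IsRelPrime (D l) (E l)) → ∀ ε : ℝ, 0 < ε →
        ∃ C : ℝ, 0 < C ∧ ∀ H : ℕ, 1 ≤ H →
          (({t : Fin r → ℤ | (∀ j, |t j| ≤ H) ∧
            ¬ NoAtypical (consts Γ) K m
              (given (evalMany K fun j => (t j : ℂ)) m G)}.ncard : ℕ) : ℝ) ≤
            C * (H : ℝ) ^ ((r : ℝ) - 1 + ε))) := by
  classical
  refine ⟨?_, ?_, ?_⟩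
  · intro Λ _ f hf K _ hK n k m L G d hd e e' hord P
    obtain ⟨hind, τ, β, hτ, hrig, hL⟩ := hord
    have hdom : IsDomain Λ := hf.isDomain f
    let _ : Algebra Λ ℂ := f.toAlgebra
    let fK : Λ →+* K := f.codRestrict K hK
    let _ : Algebra Λ K := fK.toAlgebra
    have hst : IsScalarTower Λ K ℂ := IsScalarTower.of_algebraMap_eq fun _ => rfl
    have hfK : Function.Injective (algebraMap Λ K) := fun a b h => hf (congrArg Subtype.val h)
    have P' := fun l => (P l).some
    let inst : ∀ l, Field (P' l).F := fun l => (P' l).field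
    let F := algebraicClosure K ℂ
    refine Pool.Agent.Q209.MP.noAtypicalM_pt f K _ (fun x hx => hx.1) ?_
    rintro r Z M η hη x ⟨hx0, hxG⟩ hxZ hxC S hS
    refine Pool.Agent.Q209.MB.criterionMB (F := F) (m := m) β hL
      (fun l => RingHom.ker (P' l).red) (fun l => RingHom.ker_isPrime (P' l).red) G d hd
      (fun l => (P' l).ϖ) (fun l => (P' l).red_ϖ) ?_ e e' (fun l => (P' l).w)
      (fun l J hJ u hu => (P' l).box J hJ u hu)
      (fun l J hJ I hI => (P' l).corners J hJ I (contains hI)) (indPos hind) hτ hrig Z.cls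
      (fun i => (Z.mat i).det.toNat) x M η
      (fun i => by
        have := Z.det_pos i
        omega) ?_
      (fun i j l hi hj => by
        have h5 := Pool.Agent.Y152.RP.FamM.rel_of_locus Z hxZ i j l hi hj
        rw [Int.toNat_mul (Z.det_pos i).le (Z.det_pos j).le] at h5
        exact h5) hx0 ?_ (fun j => (hη j).1) (fun j => (hη j).2.1) (fun j => (hη j).2.2) hxC.2
      hxG S (hS.restrictScalars hfK) (hS.extendScalars F)
    · intro l h0
      exact (P' l).ϖ_ne (hf (h0.trans (map_zero f).symm))
    · intro i hi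
      obtain ⟨z, hz⟩ := hxZ
      have e3 : x (Sum.inl i) = Z.const i := (hz i).1 hi
      rw [e3]
      rcases Z.allowed i with ⟨τ, hτ, hc⟩ | h
      · rw [hc]
        exact (singular_modulus_integral τ hτ).tower_top
      · exact h
    · intro j
      have h1 : IsAlgebraic Λ (η j) := IsIntegral.isAlgebraic (hη j).2.1
      have h2 : IsAlgebraic K (η j) := h1.extendScalars hfK
      exact ⟨⟨η j, mem_algebraicClosure_iff.2 h2⟩, rfl⟩
  · intro K _ n k m L G d hd M D hD e e' hbox hind Γ hΓ
    have hbox' : ∀ l, ∀ α ∈ D l, Pool.Agent.Q209.MB.BoxAt m G d (e α) (e' α) α := by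
      intro l α hα J hJ
      obtain ⟨w, h1, h2⟩ := hbox l α hα J hJ
      exact ⟨w, h1, fun I hI => h2 I (contains hI)⟩
    refine ⟨fun hM t ht K' _ hKK' htK' => ?_, fun F hF => ?_⟩
    · obtain ⟨f, α, hf, hα⟩ := Pool.Agent.Q170.PD.exists_choice D hM
      obtain ⟨hi, τ, β, hτ, hrig, hL⟩ := hind f α hf hα
      exact Pool.Agent.Q209.MB.transMB K n k m τ L β hL G d hd α
        (fun l => hD _ _ (hα l)) (fun l => e (α l)) (fun l => e' (α l)) ⟨indPos hi, hτ, hrig⟩
        (fun l => hbox' _ _ (hα l)) Γ hΓ t ht K' hKK' htK'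
    · have hL0 : 0 < L := by
        by_contra h0
        have h1 : L = 0 := by omega
        subst h1
        obtain ⟨-, τ, β, -, -, hL⟩ := hind (fun l => l.elim0) (fun l => l.elim0)
          (fun l => l.elim0) (fun l => l.elim0)
        exact absurd (hL 0 (Nat.zero_le _)) (Nat.not_lt_zero _)
      exact Pool.Agent.Q209.MB.fgMB K n k m M L hL0 G d hd D hD e e'
        (fun f α hf hα => by
          obtain ⟨hi, τ, β, hτ, hrig, hL⟩ := hind f α hf hα
          exact ⟨τ, β, hL, indPos hi, hτ, hrig⟩) hbox' Γ hΓ F hF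
  · intro K _ r n k m L G d hd D E e e' hord hbox Γ hΓ
    obtain ⟨hind, τ, β, hτ, hrig, hL⟩ := hord
    have hw : ∀ l, ∃ w : Finset (Fin n ⊕ Fin k) → ℕ, ∀ J : Finset (Fin n ⊕ Fin k),
        J.card = m + 1 → (∀ u ∈ (G J).support,
          MvPolynomial.map (Int.castRingHom K) (D l) ^ (w J + poles (e l) u) ∣
          (G J).coeff u * MvPolynomial.map (Int.castRingHom K) (D l) ^ zeros (e' l) u) ∧
        ∀ I : Finset J, Contains (e l) I → ∃ b : MvPolynomial (Fin r) K,
          (G J).coeff (corner (d J) I) *
            MvPolynomial.map (Int.castRingHom K) (D l) ^ zeros (e' l) (corner (d J) I) =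
          MvPolynomial.map (Int.castRingHom K) (D l) ^ (w J + poles (e l) (corner (d J) I)) * b ∧
          ∀ t : Fin r → ℂ, aeval t (D l) = 0 → aeval t (E l) ≠ 0 → aeval t b ≠ 0 := by
      intro l
      refine ⟨fun J => if hJ : J.card = m + 1 then (hbox l J hJ).choose else 0, fun J hJ => ?_⟩
      beta_reduce
      rw [dif_pos hJ]
      exact (hbox l J hJ).choose_spec
    choose w hw using hw
    obtain ⟨Q, hQ⟩ := Pool.Agent.Q209.MB.multiMB K r n k m τ L β hL G d hd
      D E e e' ⟨indPos hind, hτ, hrig⟩ w (fun l J hJ u hu => (hw l J hJ).1 u hu)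
      (fun l J hJ I hI => (hw l J hJ).2 I (contains hI)) Γ hΓ
    have hQ' : ∀ t : Fin r → ℤ, (∀ l, eval t (D l) ≠ 0 ∧ ∃ p : ℕ, p.Prime ∧ Q < p ∧
        (p : ℤ) ∣ eval t (D l) ∧ ¬ (p : ℤ) ∣ eval t (E l)) →
        NoAtypical (consts Γ) K m (given (evalMany K fun j => (t j : ℂ)) m G) := hQ
    refine ⟨⟨Q, hQ'⟩, fun hDE ε hε => ?_⟩
    choose C hC hcount using fun l =>
      Pool.Agent.Q170.ZP.Count.card_bad (D l) (E l) (hDE l).1 (hDE l).2 Q ε hε
    have hone : ∀ l, (0 < (D l + 1).totalDegree) ∧ IsRelPrime (D l + 1) (D l) := by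
      intro l
      refine ⟨?_, IsCoprime.isRelPrime ⟨1, -1, by ring⟩⟩
      have h1 : (1 : MvPolynomial (Fin r) ℤ).totalDegree < (D l).totalDegree := by
        rw [totalDegree_one]
        exact (hDE l).1
      rw [totalDegree_add_eq_left_of_totalDegree_lt h1]
      exact (hDE l).1
    choose C' hC' hcount' using fun l =>
      Pool.Agent.Q170.ZP.Count.card_bad (D l + 1) (D l) (hone l).1 (hone l).2 Q ε hε
    refine ⟨1 + ∑ l, (C l + C' l), add_pos_of_pos_of_nonneg one_pos
      (Finset.sum_nonneg fun l _ => (add_pos (hC l) (hC' l)).le), fun H hH => ?_⟩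
    let S1 : Fin L → Finset (Fin r → ℤ) := fun l =>
      (Pool.Agent.Q170.ZP.Count.box r H).filter fun t =>
          ¬ ∃ p : ℕ, p.Prime ∧ Q < p ∧ (p : ℤ) ∣ eval t (D l) ∧ ¬ (p : ℤ) ∣ eval t (E l)
    let S2 : Fin L → Finset (Fin r → ℤ) := fun l =>
      (Pool.Agent.Q170.ZP.Count.box r H).filter fun t =>
          ¬ ∃ p : ℕ, p.Prime ∧ Q < p ∧ (p : ℤ) ∣ eval t (D l + 1) ∧ ¬ (p : ℤ) ∣ eval t (D l)
    have h1 : {t : Fin r → ℤ | (∀ j, |t j| ≤ H) ∧
        ¬ NoAtypical (consts Γ) K m (given (evalMany K fun j => (t j : ℂ)) m G)} ⊆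
        ((Finset.univ.biUnion fun l => S1 l ∪ S2 l : Finset (Fin r → ℤ)) : Set (Fin r → ℤ)) := by
      rintro t ⟨ht, hbad⟩
      by_contra hcon
      refine hbad (hQ' t fun l => ⟨fun h0 => ?_, ?_⟩)
      · refine hcon ?_
        rw [Finset.mem_coe, Finset.mem_biUnion]
        refine ⟨l, Finset.mem_univ l, Finset.mem_union_right _ (Finset.mem_filter.2
          ⟨Pool.Agent.Q170.ZP.Count.mem_box.2 ht, ?_⟩)⟩
        rintro ⟨p, -, -, -, h2⟩
        exact h2 (h0 ▸ dvd_zero _)
      · by_contra hl
        refine hcon ?_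
        rw [Finset.mem_coe, Finset.mem_biUnion]
        exact ⟨l, Finset.mem_univ l, Finset.mem_union_left _ (Finset.mem_filter.2
          ⟨Pool.Agent.Q170.ZP.Count.mem_box.2 ht, hl⟩)⟩
    have h2 := (Set.ncard_le_ncard h1 (Finset.finite_toSet _)).trans
      ((Set.ncard_coe_finset _).le.trans Finset.card_biUnion_le)
    have hHpos : (0 : ℝ) ≤ (H : ℝ) ^ ((r : ℝ) - 1 + ε) := by positivity
    calc ((({t : Fin r → ℤ | (∀ j, |t j| ≤ H) ∧
            ¬ NoAtypical (consts Γ) K m
              (given (evalMany K fun j => (t j : ℂ)) m G)}).ncard : ℕ) : ℝ)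
        ≤ ((∑ l, (S1 l ∪ S2 l).card : ℕ) : ℝ) := by exact_mod_cast h2
      _ ≤ ((∑ l, ((S1 l).card + (S2 l).card) : ℕ) : ℝ) := by
          exact_mod_cast Finset.sum_le_sum fun l _ => Finset.card_union_le _ _
      _ = ∑ l, (((S1 l).card : ℝ) + ((S2 l).card : ℝ)) := by push_cast; rfl
      _ ≤ ∑ l, (C l * (H : ℝ) ^ ((r : ℝ) - 1 + ε) + C' l * (H : ℝ) ^ ((r : ℝ) - 1 + ε)) :=
          Finset.sum_le_sum fun l _ => add_le_add (hcount l H hH) (hcount' l H hH)
      _ = (∑ l, (C l + C' l)) * (H : ℝ) ^ ((r : ℝ) - 1 + ε) := by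
          rw [Finset.sum_mul]
          refine Finset.sum_congr rfl fun l _ => ?_
          ring
      _ ≤ (1 + ∑ l, (C l + C' l)) * (H : ℝ) ^ ((r : ℝ) - 1 + ε) := by
          refine mul_le_mul_of_nonneg_right ?_ hHpos
          linarith

end Pool.Agent.Results.MP_eeb1a4_ag.PartialBoxDegenerations
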